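import Pool.Agent.H752.GM.Stubs
import Pool.Agent.H620R2.GaugeR.R9

/-!
# Nothing is marked, with positive probability (task M3 of project GM, by helper64)
-/

namespace Pool.Agent.H752.GM

open Pool.Agent.NPC Pool.Agent.H620R2.Gauge Finset H568R2 MeasureTheory

namespace M3

/-- the marker positions -/
def pos (x : List Bool) (i : Fin (nm x)) : List Bool := mkS x i

theorem pos_inj (x : List Bool) : Function.Injective (pos x) := by
  intro i j h
  have h1 := r9_pair_inj x h
  have h2 := congrArg List.length h1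
  simp only [List.length_replicate] at h2
  ext
  omega

theorem marked_eq (x : List Bool) :
    {B : Oracle | Marked B x} = {B : Oracle | (fun a : Fin (nm x) → Bool => ∀ i, a i = true)
      (fun i => B (pos x i))} := by
  ext B
  simp only [Set.mem_ofPred_eq, Marked, pos]
  constructor
  · intro h i
    exact h i i.2
  · intro h i hi
    exact h ⟨i, hi⟩

theorem ex_all (n : ℕ) (I1 : DecidableEq (Fin n))
    (D : ∀ a : Fin n → Bool, Decidable (∀ i, a i = true)) :
    @Ex (Fin n) _ I1 Bool _ unif (fun a : Fin n → Bool => @ite ℝ (∀ i, a i = true) (D a) 1 0) =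
      (1 / 2) ^ n := by
  classical
  unfold Ex
  rw [Finset.sum_eq_single (fun _ : Fin n => true)]
  · simp [unif]
  · intro a _ ha
    have h1 : ¬ ∀ i, a i = true := fun h => ha (funext h)
    simp only [if_neg h1, mul_zero]
  · intro h
    exact absurd (Finset.mem_univ _) h

theorem bound (x : List Bool) :
    ranO {B : Oracle | Marked B x} ≤ ENNReal.ofReal ((1 / 8) ^ (x.length + 1)) := by
  rw [marked_eq]
  refine (ranO_cyl_le (pos x) (pos_inj x) (fun a => ∀ i, a i = true)).trans ?_
  apply ENNReal.ofReal_le_ofReal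
  refine le_trans (le_of_eq (ex_all (nm x) _ _)) ?_
  have h3 : (1 / 8 : ℝ) ^ (x.length + 1) = (1 / 2) ^ (3 * (x.length + 1)) := by
    rw [pow_mul]; norm_num
  rw [h3]
  apply pow_le_pow_of_le_one (by norm_num) (by norm_num)
  unfold nm
  omega

end M3

theorem t_mark : St_mark := by
  unfold St_mark
  by_contra h0
  have h0' : ranO {B : Oracle | ∀ x, ¬ Marked B x} = 0 := by
    simpa using h0
  have hsub : (Set.univ : Set Oracle) ⊆
      {B | ∀ x, ¬ Marked B x} ∪ ⋃ i : ℕ, {B | Marked B (str i)} := by
    intro B _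
    by_cases hB : ∀ x, ¬ Marked B x
    · exact Or.inl hB
    · right
      push Not at hB
      obtain ⟨x, hx⟩ := hB
      refine Set.mem_iUnion.2 ⟨idx x, ?_⟩
      show Marked B (str (idx x))
      rw [str_idx]
      exact hx
  have h1 : ∑' i : ℕ, ranO {B : Oracle | Marked B (str i)} ≤ ENNReal.ofReal (1 / 2) := by
    refine ENNReal.tsum_le_of_sum_range_le fun n => ?_
    calc ∑ i ∈ range n, ranO {B : Oracle | Marked B (str i)}
        ≤ ∑ i ∈ range n, ENNReal.ofReal (1 / 2 * (1 / ((i : ℝ) + 1) - 1 / ((i : ℝ) + 1 + 1))) :=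
          Finset.sum_le_sum fun i _ =>
            (M3.bound (str i)).trans (ENNReal.ofReal_le_ofReal (r9_tele i))
      _ = ENNReal.ofReal (∑ i ∈ range n,
            (1 / 2 * (1 / ((i : ℝ) + 1) - 1 / ((i : ℝ) + 1 + 1)))) := by
          rw [ENNReal.ofReal_sum_of_nonneg]
          intro i _
          exact le_trans (by positivity) (r9_tele i)
      _ ≤ ENNReal.ofReal (1 / 2) := by
          apply ENNReal.ofReal_le_ofReal
          rw [← Finset.mul_sum]
          have h2 := Finset.sum_range_sub' (fun i : ℕ => 1 / ((i : ℝ) + 1)) n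
          have h3 : ∑ i ∈ range n, (1 / ((i : ℝ) + 1) - 1 / ((i : ℝ) + 1 + 1)) =
              1 / (((0 : ℕ) : ℝ) + 1) - 1 / ((n : ℝ) + 1) := by
            rw [← h2]
            refine Finset.sum_congr rfl fun i _ => ?_
            push_cast
            ring
          rw [h3]
          have h4 : 0 ≤ 1 / ((n : ℝ) + 1) := by positivity
          norm_num at h4 ⊢
          linarith
  have h2 : (1 : ENNReal) ≤ ENNReal.ofReal (1 / 2) := by
    calc (1 : ENNReal) = ranO Set.univ := MeasureTheory.measure_univ.symm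
      _ ≤ ranO ({B : Oracle | ∀ x, ¬ Marked B x} ∪ ⋃ i : ℕ, {B | Marked B (str i)}) :=
          MeasureTheory.measure_mono hsub
      _ ≤ ranO {B : Oracle | ∀ x, ¬ Marked B x} + ranO (⋃ i : ℕ, {B | Marked B (str i)}) :=
          MeasureTheory.measure_union_le _ _
      _ ≤ 0 + ∑' i : ℕ, ranO {B : Oracle | Marked B (str i)} := by
          rw [h0']
          exact add_le_add le_rfl (MeasureTheory.measure_iUnion_le _)
      _ ≤ ENNReal.ofReal (1 / 2) := by rw [zero_add]; exact h1
  rw [← ENNReal.ofReal_one, ENNReal.ofReal_le_ofReal_iff (by norm_num)] at h2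
  norm_num at h2

end Pool.Agent.H752.GM
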