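import Pool.Agent.H752.GM.Stubs

/-!
# Majority vote (task M11 of project GM, by helper64)
-/

namespace Pool.Agent.H752.GM

open Pool.Agent.NPC Pool.Agent.H620R2.Gauge Finset H568R2 MeasureTheory

namespace M11

open Classical in
/-- the number of choices of the samples for which at least half of the samples are bad -/
theorem count {p u : ℕ} (H : (Fin p → Bool) → Bool)
    (h : 3 * Nat.card {w : Fin p → Bool // H w = true} ≤ 2 ^ p) :
    ((univ.filter (fun c : Fin (2 * u) × Fin p → Bool =>
      u ≤ Nat.card {i : Fin (2 * u) // H (fun t => c (i, t)) = true})).card : ℝ) ≤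
        (8 / 9) ^ u * 2 ^ (2 * u * p) := by
  have h1 : (univ.filter (fun c : Fin (2 * u) × Fin p → Bool =>
      u ≤ Nat.card {i : Fin (2 * u) // H (fun t => c (i, t)) = true})).card =
      (univ.filter (fun d : Fin (2 * u) → Fin p → Bool =>
        u ≤ Nat.card {i : Fin (2 * u) // H (d i) = true})).card := by
    refine Finset.card_bij (fun c _ i t => c (i, t)) ?_ ?_ ?_
    · intro c hc
      simp only [Finset.mem_filter, Finset.mem_univ, true_and] at hc ⊢
      exact hc
    · intro c _ c' _ hcc
      funext q
      exact congrFun (congrFun hcc q.1) q.2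
    · intro d hd
      refine ⟨fun q => d q.1 q.2, ?_, rfl⟩
      simp only [Finset.mem_filter, Finset.mem_univ, true_and] at hd ⊢
      exact hd
  rw [h1]
  set φ : (Fin p → Bool) → ℝ := fun w => if H w = true then 2 else 1 with hφ
  have hsum : ∑ w : Fin p → Bool, φ w ≤ 4 / 3 * 2 ^ p := by
    have e1 : ∑ w : Fin p → Bool, φ w =
        (2 : ℝ) ^ p + (Nat.card {w : Fin p → Bool // H w = true} : ℝ) := by
      have e2 : ∀ w, φ w = 1 + (if H w = true then (1 : ℝ) else 0) := by
        intro w
        simp only [hφ]
        split_ifs <;> norm_num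
      rw [Finset.sum_congr rfl fun w _ => e2 w, Finset.sum_add_distrib, Finset.sum_const,
        Finset.card_univ, Finset.sum_boole, Nat.card_eq_fintype_card, Fintype.card_subtype]
      simp
    have e3 : 3 * (Nat.card {w : Fin p → Bool // H w = true} : ℝ) ≤ 2 ^ p := by exact_mod_cast h
    rw [e1]
    linarith
  have hsum0 : 0 ≤ ∑ w : Fin p → Bool, φ w :=
    Finset.sum_nonneg fun w _ => by simp only [hφ]; split_ifs <;> norm_num
  have hprod : ∀ d : Fin (2 * u) → Fin p → Bool, ∏ i, φ (d i) =
      2 ^ Nat.card {i : Fin (2 * u) // H (d i) = true} := by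
    intro d
    simp only [hφ]
    rw [Finset.prod_ite, Nat.card_eq_fintype_card, Fintype.card_subtype]
    simp
  have h2 : ((univ.filter (fun d : Fin (2 * u) → Fin p → Bool =>
        u ≤ Nat.card {i : Fin (2 * u) // H (d i) = true})).card : ℝ) * 2 ^ u ≤
      (4 / 3 * 2 ^ p) ^ (2 * u) := by
    calc ((univ.filter (fun d : Fin (2 * u) → Fin p → Bool =>
        u ≤ Nat.card {i : Fin (2 * u) // H (d i) = true})).card : ℝ) * 2 ^ u
        = ∑ d ∈ univ.filter (fun d : Fin (2 * u) → Fin p → Bool =>
            u ≤ Nat.card {i : Fin (2 * u) // H (d i) = true}), (2 : ℝ) ^ u := by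
          rw [Finset.sum_const, nsmul_eq_mul]
      _ ≤ ∑ d ∈ univ.filter (fun d : Fin (2 * u) → Fin p → Bool =>
            u ≤ Nat.card {i : Fin (2 * u) // H (d i) = true}), ∏ i, φ (d i) := by
          refine Finset.sum_le_sum fun d hd => ?_
          rw [hprod d]
          exact pow_le_pow_right₀ (by norm_num) (Finset.mem_filter.1 hd).2
      _ ≤ ∑ d : Fin (2 * u) → Fin p → Bool, ∏ i, φ (d i) := by
          refine Finset.sum_le_sum_of_subset_of_nonneg (Finset.filter_subset _ _) fun d _ _ => ?_
          rw [hprod d]
          positivity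
      _ = (∑ w, φ w) ^ (2 * u) := (Fintype.sum_pow φ (2 * u)).symm
      _ ≤ (4 / 3 * 2 ^ p) ^ (2 * u) := pow_le_pow_left₀ hsum0 hsum _
  have h3 : (4 / 3 * 2 ^ p : ℝ) ^ (2 * u) = ((8 / 9) ^ u * 2 ^ (2 * u * p)) * 2 ^ u := by
    rw [mul_pow, ← pow_mul, mul_comm p (2 * u), pow_mul (4 / 3 : ℝ) 2 u]
    have : ((4 / 3 : ℝ) ^ 2) ^ u = (8 / 9) ^ u * 2 ^ u := by
      rw [← mul_pow]; norm_num
    rw [this]
    ring
  rw [h3] at h2
  exact le_of_mul_le_mul_right h2 (by positivity)

end M11

theorem t_vote : St_vote := by
  classical
  intro I _ _ p u pos F hinj hF Ev hEv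
  set π : Fin (2 * u) × Fin p → I := fun q => pos q.1 q.2 with hπ
  set E : (I → Bool) ≃ (Fin (2 * u) × Fin p → Bool) × ({e : I // ¬ (e ∈ Set.range π)} → Bool) :=
    (Equiv.piEquivPiSubtypeProd (fun e => e ∈ Set.range π) (fun _ => Bool)).trans
      (Equiv.prodCongr (Equiv.arrowCongr (Equiv.ofInjective π hinj).symm (Equiv.refl _))
        (Equiv.refl _)) with hE
  have hE1 : ∀ a q, (E a).1 q = a (π q) := by
    intro a q
    simp [hE, Equiv.piEquivPiSubtypeProd, Equiv.arrowCongr]
  have hE2 : ∀ a e, (E a).2 e = a e.1 := by
    intro a e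
    simp [hE, Equiv.piEquivPiSubtypeProd]
  have hS1 : ∀ c b q, E.symm (c, b) (π q) = c q := by
    intro c b q
    rw [← hE1 (E.symm (c, b)) q, Equiv.apply_symm_apply]
  have hS2 : ∀ c b (e : {e : I // ¬ (e ∈ Set.range π)}), E.symm (c, b) e.1 = b e := by
    intro c b e
    rw [← hE2 (E.symm (c, b)) e, Equiv.apply_symm_apply]
  have hFb : ∀ c c' b, F (E.symm (c, b)) = F (E.symm (c', b)) := by
    intro c c' b
    refine hF _ _ fun e he => ?_
    have he' : ¬ (e ∈ Set.range π) := by
      rintro ⟨q, rfl⟩
      exact he q.1 q.2 rfl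
    rw [hS2 c b ⟨e, he'⟩, hS2 c' b ⟨e, he'⟩]
  have hcard : Fintype.card I = (2 * u) * p + Fintype.card {e : I // ¬ (e ∈ Set.range π)} := by
    have h1 := Fintype.card_subtype_compl (fun e => e ∈ Set.range π)
    have h2 : Fintype.card {e : I // e ∈ Set.range π} = (2 * u) * p := by
      rw [← Fintype.card_congr (Equiv.ofInjective π hinj)]
      simp
    have h3 := Fintype.card_subtype_le (fun e => e ∈ Set.range π)
    omega
  have hsum : ∑ a : I → Bool, (if Ev a then (1 : ℝ) else 0) ≤
      (8 / 9) ^ u * 2 ^ ((2 * u) * p) * 2 ^ Fintype.card {e : I // ¬ (e ∈ Set.range π)} := by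
    rw [← E.symm.sum_comp, Fintype.sum_prod_type_right]
    have hb : ∀ b : {e : I // ¬ (e ∈ Set.range π)} → Bool,
        ∑ c : Fin (2 * u) × Fin p → Bool, (if Ev (E.symm (c, b)) then (1 : ℝ) else 0) ≤
          (8 / 9) ^ u * 2 ^ ((2 * u) * p) := by
      intro b
      set F' := F (E.symm (fun _ => false, b)) with hF'
      have key : ∀ c : Fin (2 * u) × Fin p → Bool, Ev (E.symm (c, b)) →
          (2 * 2 ^ p ≤ 3 * Nat.card {w : Fin p → Bool // F' w = true} ∧
            Nat.card {i : Fin (2 * u) // F' (fun t => c (i, t)) = true} < u) ∨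
          (3 * Nat.card {w : Fin p → Bool // F' w = true} ≤ 2 ^ p ∧
            u ≤ Nat.card {i : Fin (2 * u) // F' (fun t => c (i, t)) = true}) := by
        intro c hc
        have h2 : ∀ i, (fun t => E.symm (c, b) (pos i t)) = fun t => c (i, t) := by
          intro i
          funext t
          exact hS1 c b (i, t)
        have h3 := hEv _ hc
        simp only [hFb c (fun _ => false) b, h2, ← hF'] at h3
        exact h3
      rw [Finset.sum_boole]
      have hpp : 0 < 2 ^ p := by positivity
      by_cases hc : 3 * Nat.card {w : Fin p → Bool // F' w = true} ≤ 2 ^ p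
      · refine le_trans ?_ (M11.count (u := u) F' hc)
        have hsub : (univ.filter fun c : Fin (2 * u) × Fin p → Bool => Ev (E.symm (c, b))) ⊆
            univ.filter (fun c : Fin (2 * u) × Fin p → Bool =>
              u ≤ Nat.card {i : Fin (2 * u) // F' (fun t => c (i, t)) = true}) := by
          intro c hcm
          rw [Finset.mem_filter] at hcm ⊢
          refine ⟨Finset.mem_univ _, ?_⟩
          rcases key c hcm.2 with h | h
          · omega
          · exact h.2
        exact_mod_cast Finset.card_le_card hsub
      · by_cases hc2 : 2 * 2 ^ p ≤ 3 * Nat.card {w : Fin p → Bool // F' w = true}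
        · set H : (Fin p → Bool) → Bool := fun w => !(F' w) with hH
          have hHc : Nat.card {w : Fin p → Bool // H w = true} +
              Nat.card {w : Fin p → Bool // F' w = true} = 2 ^ p := by
            rw [Nat.card_eq_fintype_card, Fintype.card_subtype, Nat.card_eq_fintype_card,
              Fintype.card_subtype]
            have h3 := Finset.card_filter_add_card_filter_not (s := (univ : Finset (Fin p → Bool)))
              (fun w => H w = true)
            have h4 : (univ.filter fun w : Fin p → Bool => ¬ H w = true) =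
                univ.filter fun w : Fin p → Bool => F' w = true := by
              ext w
              simp [hH]
            rw [h4, Finset.card_univ] at h3
            rw [h3]
            simp
          have hH3 : 3 * Nat.card {w : Fin p → Bool // H w = true} ≤ 2 ^ p := by omega
          refine le_trans ?_ (M11.count (u := u) H hH3)
          have hsub : (univ.filter fun c : Fin (2 * u) × Fin p → Bool => Ev (E.symm (c, b))) ⊆
              univ.filter (fun c : Fin (2 * u) × Fin p → Bool =>
                u ≤ Nat.card {i : Fin (2 * u) // H (fun t => c (i, t)) = true}) := by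
            intro c hcm
            rw [Finset.mem_filter] at hcm ⊢
            refine ⟨Finset.mem_univ _, ?_⟩
            rcases key c hcm.2 with h | h
            · have h5 : Nat.card {i : Fin (2 * u) // H (fun t => c (i, t)) = true} +
                  Nat.card {i : Fin (2 * u) // F' (fun t => c (i, t)) = true} = (2 * u) := by
                rw [Nat.card_eq_fintype_card, Fintype.card_subtype, Nat.card_eq_fintype_card,
                  Fintype.card_subtype]
                have h3 := Finset.card_filter_add_card_filter_not (s := (univ : Finset (Fin (2 * u))))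
                  (fun i => H (fun t => c (i, t)) = true)
                have h4 : (univ.filter fun i : Fin (2 * u) => ¬ H (fun t => c (i, t)) = true) =
                    univ.filter fun i : Fin (2 * u) => F' (fun t => c (i, t)) = true := by
                  ext w
                  simp [hH]
                rw [h4, Finset.card_univ] at h3
                rw [h3]
                simp
              have h6 := h.2
              show u ≤ Nat.card {i : Fin (2 * u) // H (fun t => c (i, t)) = true}
              omega
            · exact absurd h.1 hc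
          exact_mod_cast Finset.card_le_card hsub
        · have hem : (univ.filter fun c : Fin (2 * u) × Fin p → Bool => Ev (E.symm (c, b))) = ∅ := by
            rw [Finset.filter_eq_empty_iff]
            intro c _ h
            rcases key c h with h | h
            · exact hc2 h.1
            · exact hc h.1
          rw [hem]
          simp only [Finset.card_empty, Nat.cast_zero]
          positivity
    calc _ ≤ ∑ b : {e : I // ¬ (e ∈ Set.range π)} → Bool, ((8 / 9 : ℝ) ^ u * 2 ^ ((2 * u) * p)) :=
          Finset.sum_le_sum fun b _ => hb b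
      _ = _ := by
          rw [Finset.sum_const, Finset.card_univ, Fintype.card_fun, Fintype.card_bool, nsmul_eq_mul]
          push_cast
          ring
  unfold Ex
  have hun : ∀ a : I → Bool, (∏ i, unif (a i)) = (1 / 2 : ℝ) ^ Fintype.card I := by
    intro a
    simp only [unif, Finset.prod_const, Finset.card_univ]
  simp only [hun]
  rw [← Finset.mul_sum]
  calc (1 / 2 : ℝ) ^ Fintype.card I * _ ≤ (1 / 2 : ℝ) ^ Fintype.card I *
        ((8 / 9) ^ u * 2 ^ ((2 * u) * p) * 2 ^ Fintype.card {e : I // ¬ (e ∈ Set.range π)}) := by
          refine mul_le_mul_of_nonneg_left ?_ (by positivity)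
          exact hsum
    _ = (8 / 9) ^ u := by
        rw [hcard, pow_add]
        have e1 : (1 / 2 : ℝ) ^ ((2 * u) * p) * 2 ^ ((2 * u) * p) = 1 := by
          rw [← mul_pow]; norm_num
        have e2 : (1 / 2 : ℝ) ^ Fintype.card {e : I // ¬ (e ∈ Set.range π)} *
            2 ^ Fintype.card {e : I // ¬ (e ∈ Set.range π)} = 1 := by
          rw [← mul_pow]; norm_num
        calc _ = ((1 / 2 : ℝ) ^ ((2 * u) * p) * 2 ^ ((2 * u) * p)) *
              ((1 / 2 : ℝ) ^ Fintype.card {e : I // ¬ (e ∈ Set.range π)} *
              2 ^ Fintype.card {e : I // ¬ (e ∈ Set.range π)}) * (8 / 9) ^ u := by ring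
          _ = _ := by rw [e1, e2]; ring

end Pool.Agent.H752.GM
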